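import Pool.Agent.Y798.OG.Stm3

/-!
# The determinants of the classes (StmDet), project OG of helper798
-/

set_option autoImplicit false

namespace Pool.Agent.Y67.OGD

open Pool.Agent.Y798.OG
open Pool.Agent.Y139.ID (ev es)

theorem es_top {N : ℕ} (x : UnitAddTorus (Fin N)) : es N x = ∏ i, ev x i := by
  unfold es
  have h : Finset.powersetCard N (Finset.univ : Finset (Fin N)) = {Finset.univ} := by
    have h1 := Finset.powersetCard_self (Finset.univ : Finset (Fin N))
    rwa [Finset.card_univ, Fintype.card_fin] at h1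
  rw [h, Finset.sum_singleton]

/-- the character -/
noncomputable def e1 (c : UnitAddCircle) : ℂ := fourier 1 c

theorem ev_eq {N : ℕ} (x : UnitAddTorus (Fin N)) (i : Fin N) : ev x i = e1 (x i) := rfl

theorem e1_add (a b : UnitAddCircle) : e1 (a + b) = e1 a * e1 b := by
  unfold e1
  simp [fourier_apply, AddCircle.toCircle_add]

theorem e1_zero : e1 0 = 1 := by
  unfold e1
  simp [fourier_apply]

theorem e1_neg (a : UnitAddCircle) : e1 a * e1 (-a) = 1 := by
  rw [← e1_add, add_neg_cancel, e1_zero]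

theorem e1_half : e1 ((1 / 2 : ℝ) : UnitAddCircle) = -1 := by
  unfold e1
  rw [fourier_coe_apply]
  have h : 2 * (Real.pi : ℂ) * Complex.I * ((1 : ℤ) : ℂ) * ((1 / 2 : ℝ) : ℂ) / ((1 : ℝ) : ℂ) =
      Real.pi * Complex.I := by
    push_cast
    ring
  rw [h, Complex.exp_pi_mul_I]

theorem prod_append {n m : ℕ} (f : Fin n → UnitAddCircle) (g : Fin m → UnitAddCircle) :
    ∏ i, e1 ((Fin.append f g : Fin (n + m) → UnitAddCircle) i) =
      (∏ i, e1 (f i)) * ∏ i, e1 (g i) := by
  rw [Fin.prod_univ_add]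
  simp only [Fin.append_left, Fin.append_right]

theorem prod_cons {n : ℕ} (c : UnitAddCircle) (f : Fin n → UnitAddCircle) :
    ∏ i, e1 ((Fin.cons c f : Fin (n + 1) → UnitAddCircle) i) = e1 c * ∏ i, e1 (f i) := by
  rw [Fin.prod_univ_succ]
  simp only [Fin.cons_zero, Fin.cons_succ]

theorem prod_pm {m : ℕ} (x : Fin m → UnitAddCircle) :
    (∏ i, e1 (x i)) * ∏ i, e1 ((-x) i) = 1 := by
  rw [← Finset.prod_mul_distrib]
  exact Finset.prod_eq_one fun i _ => e1_neg (x i)

theorem detO {m : ℕ} (x : UnitAddTorus (Fin m)) : es (m + m + 1) (posO x) = 1 := by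
  rw [es_top]
  simp only [ev_eq]
  unfold posO
  rw [prod_cons, prod_append, e1_zero, one_mul]
  exact prod_pm x

theorem t : StmDet := by
  intro m
  refine ⟨fun x => ?_, fun y => ?_, fun x => detO x, fun x => ?_⟩
  · rw [es_top]
    simp only [ev_eq]
    unfold pos
    rw [prod_append]
    exact prod_pm x
  · rw [es_top]
    simp only [ev_eq]
    unfold neg
    rw [prod_append, prod_cons, prod_cons, e1_zero, e1_half]
    have h := prod_pm y
    linear_combination (-1 : ℂ) * h
  · have h := detO x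
    rw [es_top] at h ⊢
    simp only [ev_eq] at h ⊢
    have h1 : ∀ i, e1 (negO x i) = e1 (posO x i) * (-1) := by
      intro i
      have h2 : negO x i = posO x i + ((1 / 2 : ℝ) : UnitAddCircle) := rfl
      rw [h2, e1_add, e1_half]
    rw [Finset.prod_congr rfl fun i _ => h1 i, Finset.prod_mul_distrib, h, one_mul,
      Finset.prod_const, Finset.card_univ, Fintype.card_fin]
    exact Odd.neg_one_pow ⟨m, by omega⟩

end Pool.Agent.Y67.OGD
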