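import Pool.Agent.Y798.OG.Stm2

/-!
# Finite level without hypothesis (StmFL), project OG of helper798
(adapted from `Pool/Agent/Y798/FC/Near.lean` and `Pool/Agent/Y798/FC/Fin.lean`)
-/

set_option autoImplicit false

namespace Pool.Agent.Y67.OGF

open MeasureTheory UnitAddTorus Filter Topology NumberField IsDedekindDomain
  Pool.Agent.W540.BE Pool.Agent.TH553.RS Pool.Agent.TH553.ST Pool.Agent.Y798.FC Pool.Agent.Y798.OG
open Pool.Agent.Y139.ID (Good good_ev wt wt_nonneg hasSum_wt emp emp_univ emp_integral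
  integrable_cont integrable_cont_real IsHaarOn annih ev es chiW
  idx chiW_eq_sum norm_term norm_chiW_le continuous_chiW SD im_chiW re_chiW
  norm_ev avg_le avg avg_sub avg_eq)

section
variable {N : ℕ} {I : Type} [Fintype I]

theorem isClosed_classes (P : I → Part N) : IsClosed (classes P) :=
  isClosed_iUnion_of_finite fun i => (isCompact_range (P i).cemb).isClosed

omit [Fintype I] in
theorem classes_SD {P : I → Part N} {x : UnitAddTorus (Fin N)} (hx : x ∈ classes P) :
    x ∈ SD N := by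
  obtain ⟨_, ⟨i, rfl⟩, y, rfl⟩ := hx
  exact (P i).sd y

/-- the expected mean value as a real number -/
theorem hm_real (P : I → Part N) {r : ℕ} (k : Fin r → ℕ) :
    hm P (chiW k) = (((hm P (chiW k)).re : ℝ) : ℂ) := by
  have h : ∃ s : ℝ, hm P (chiW k) = (s : ℂ) := by
    refine ⟨∑ i, (((P i).κ : ℝ) * (Nat.card (sympW (P i).r) : ℝ))⁻¹ *
      ∫ x, (chiW k ((P i).emb x)).re * dens (P i).Φ x ∂(vol (Fin (P i).r)), ?_⟩
    unfold hm
    push_cast
    refine Finset.sum_congr rfl fun i _ => ?_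
    rw [← integral_complex_ofReal]
    congr 1
    refine integral_congr_ae (Eventually.of_forall fun x => ?_)
    simp only
    rw [Complex.ofReal_mul, re_chiW k ((P i).sd x)]
  obtain ⟨s, hs⟩ := h
  rw [hs, Complex.ofReal_re]

/-- the condition on the support passes to the limit -/
theorem null_limit {P : I → Part N} {ι : Type*} (U : Ultrafilter ι)
    (Q : ι → ProbabilityMeasure (UnitAddTorus (Fin N)))
    (hQ : ∀ M, (Q M : Measure (UnitAddTorus (Fin N))) (classes P)ᶜ = 0)
    (ν : ProbabilityMeasure (UnitAddTorus (Fin N)))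
    (hν : ∀ f : UnitAddTorus (Fin N) → ℂ, Continuous f →
      Tendsto (fun i => ∫ x, f x ∂(Q i : Measure (UnitAddTorus (Fin N)))) (U : Filter ι)
        (𝓝 (∫ x, f x ∂(ν : Measure (UnitAddTorus (Fin N)))))) :
    (ν : Measure (UnitAddTorus (Fin N))) (classes P)ᶜ = 0 := by
  obtain ⟨M0⟩ : Nonempty ι := by
    by_contra h
    rw [not_nonempty_iff] at h
    have h1 : (Set.univ : Set ι) ∈ (U : Filter ι) := Filter.univ_mem
    rw [Set.univ_eq_empty_iff.2 h] at h1
    exact (Filter.empty_notMem (U : Filter ι)) h1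
  have hne : (classes P).Nonempty := by
    by_contra h
    rw [Set.not_nonempty_iff_eq_empty] at h
    have h1 := hQ M0
    rw [h, Set.compl_empty, measure_univ] at h1
    exact one_ne_zero h1
  have hc : Continuous fun x : UnitAddTorus (Fin N) => Metric.infDist x (classes P) :=
    Metric.continuous_infDist_pt _
  have h1 := hν (fun x => ((Metric.infDist x (classes P) : ℝ) : ℂ))
    (Complex.continuous_ofReal.comp hc)
  have h2 : ∀ M, ∫ x, ((Metric.infDist x (classes P) : ℝ) : ℂ)
      ∂(Q M : Measure (UnitAddTorus (Fin N))) = 0 := by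
    intro M
    have h3 : (fun x : UnitAddTorus (Fin N) => ((Metric.infDist x (classes P) : ℝ) : ℂ))
        =ᵐ[(Q M : Measure (UnitAddTorus (Fin N)))] fun _ => 0 := by
      have h4 : ∀ᵐ x ∂(Q M : Measure (UnitAddTorus (Fin N))), x ∈ classes P := hQ M
      filter_upwards [h4] with x hx
      rw [Metric.infDist_zero_of_mem hx, Complex.ofReal_zero]
    rw [integral_congr_ae h3, integral_zero]
  simp only [h2] at h1
  have h5 := tendsto_nhds_unique h1 tendsto_const_nhds
  rw [integral_complex_ofReal] at h5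
  have h6 : ∫ x, Metric.infDist x (classes P) ∂(ν : Measure (UnitAddTorus (Fin N))) = 0 := by
    exact_mod_cast h5
  rw [integral_eq_zero_iff_of_nonneg (fun x => Metric.infDist_nonneg)
    (integrable_cont_real _ hc)] at h6
  have h7 : ∀ᵐ x ∂(ν : Measure (UnitAddTorus (Fin N))), x ∈ classes P := by
    filter_upwards [h6] with x hx
    exact ((isClosed_classes P).mem_iff_infDist_zero hne).2 hx
  exact h7

/-- **Quantitative form for probability measures.** -/
theorem near (P : I → Part N) {R : ℕ} (hR : LawR P R) {m : ℕ}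
    (f : Fin m → UnitAddTorus (Fin N) → ℝ) (hf : ∀ i, Continuous (f i)) (hfS : ∀ i, Sy (f i))
    {δ : ℝ} (hδ : 0 < δ) :
    ∃ (η : ℝ) (R' : ℕ), 0 < η ∧ ∀ Q : ProbabilityMeasure (UnitAddTorus (Fin N)),
      (Q : Measure (UnitAddTorus (Fin N))) (classes P)ᶜ = 0 →
      (∀ (r : ℕ) (k : Fin r → ℕ), r ≤ R' → (∀ j, k j ≤ N) →
        ∃ n : ℤ, ‖∫ x, chiW k x ∂(Q : Measure (UnitAddTorus (Fin N))) - n‖ ≤ η) →
      (∀ (r : ℕ) (k : Fin r → ℕ), r ≤ R → (∀ j, k j ≤ N) →
        ‖∫ x, chiW k x ∂(Q : Measure (UnitAddTorus (Fin N))) - hm P (chiW k)‖ ≤ η) →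
      ∃ (Γ : ∀ i, AddSubgroup (Fin (P i).r → ℤ)) (a : ∀ i, UnitAddTorus (Fin (P i).r)),
        (∀ i, Adm (P i).r (Γ i) (a i)) ∧
        ∀ σ : ∀ i, Measure (UnitAddTorus (Fin (P i).r)), (∀ i, IsHaarOn (annih (Γ i)) (σ i)) →
          ∀ i, |∫ x, f i x ∂(Q : Measure (UnitAddTorus (Fin N))) - cm P σ a (f i)| ≤ δ := by
  by_contra hcon
  push Not at hcon
  choose Q h0' h1 h2 h3 using fun M : ℕ => hcon (1 / ((M : ℝ) + 1)) M (by positivity)
  set U : Ultrafilter ℕ := Filter.hyperfilter ℕ with hU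
  have hUtop : (U : Filter ℕ) ≤ atTop := by
    rw [← Nat.cofinite_eq_atTop]
    exact Filter.hyperfilter_le_cofinite
  obtain ⟨ν, hν⟩ := exists_plim U Q
  have h0 : Tendsto (fun M : ℕ => 1 / ((M : ℝ) + 1)) (U : Filter ℕ) (𝓝 0) :=
    tendsto_one_div_add_atTop_nhds_zero_nat.mono_left hUtop
  obtain ⟨Γ, a, hadm, hlaw⟩ := hR (ν : Measure (UnitAddTorus (Fin N))) inferInstance
    (null_limit U Q h0' ν hν) (fun r k hk => by
      have hl := hν _ (continuous_chiW k)
      have h5' : ∀ M : ℕ, ∃ n : ℤ, r ≤ M →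
          ‖∫ x, chiW k x ∂(Q M : Measure (UnitAddTorus (Fin N))) - n‖ ≤ 1 / ((M : ℝ) + 1) := by
        intro M
        by_cases hM : r ≤ M
        · obtain ⟨n, hn⟩ := h1 M r k hM hk
          exact ⟨n, fun _ => hn⟩
        · exact ⟨0, fun h => absurd h hM⟩
      choose n hn using h5'
      have h6 : Tendsto (fun M => ((n M : ℤ) : ℂ)) (U : Filter ℕ)
          (𝓝 (∫ x, chiW k x ∂(ν : Measure (UnitAddTorus (Fin N))))) := by
        have h7 : Tendsto (fun M => ∫ x, chiW k x ∂(Q M : Measure (UnitAddTorus (Fin N))) -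
            ((n M : ℤ) : ℂ)) (U : Filter ℕ) (𝓝 0) := by
          refine squeeze_zero_norm' (a := fun M : ℕ => 1 / ((M : ℝ) + 1)) ?_ h0
          exact ((eventually_ge_atTop r).filter_mono hUtop).mono fun M hM => hn M hM
        have h8 := hl.sub h7
        rw [sub_zero] at h8
        refine h8.congr fun M => ?_
        ring
      obtain ⟨z, hz⟩ := (int_limit (Eventually.of_forall fun M => ⟨n M, rfl⟩) h6).1
      exact ⟨z, hz⟩) (fun r k hr hk => by
      have hl := (hν _ (continuous_chiW k)).sub_const (hm P (chiW k))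
      have h7 : Tendsto (fun M => ∫ x, chiW k x ∂(Q M : Measure (UnitAddTorus (Fin N))) -
          hm P (chiW k)) (U : Filter ℕ) (𝓝 0) :=
        squeeze_zero_norm (a := fun M : ℕ => 1 / ((M : ℝ) + 1)) (fun M => h2 M r k hr hk) h0
      exact sub_eq_zero.1 (tendsto_nhds_unique hl h7))
  -- the integrals converge
  have h10 : ∀ᶠ M in (U : Filter ℕ), ∀ i,
      |∫ x, f i x ∂(Q M : Measure (UnitAddTorus (Fin N))) -
        ∫ x, f i x ∂(ν : Measure (UnitAddTorus (Fin N)))| < δ := by
    rw [Filter.eventually_all]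
    intro i
    have h11 := (Complex.continuous_re.tendsto _).comp
      (hν (fun x => (f i x : ℂ)) (Complex.continuous_ofReal.comp (hf i)))
    rw [integral_complex_ofReal, Complex.ofReal_re] at h11
    have h12 := (h11.sub_const (∫ x, f i x ∂(ν : Measure (UnitAddTorus (Fin N))))).abs
    rw [sub_self, abs_zero] at h12
    refine (h12.eventually_lt_const hδ).mono fun M hM => ?_
    simp only [Function.comp] at hM
    rwa [integral_complex_ofReal, Complex.ofReal_re] at hM
  obtain ⟨M, hM⟩ := h10.exists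
  obtain ⟨σ, hσ, i, hi⟩ := h3 M Γ a hadm
  rw [← hlaw σ hσ (f i) (hf i) (hfS i)] at hi
  exact absurd (hM i) (not_lt.2 hi.le)

end

section
variable {K : Type} [Field K] [NumberField K] {N : ℕ}

theorem word_szT (t : HeightOneSpectrum (𝓞 K) → UnitAddTorus (Fin N)) {r : ℕ} (k : Fin r → ℕ) :
    Tendsto (fun ε : ℝ => avg (fun v => (chiW k (t v)).re) ε - sz (wordLT t k) ε) (𝓝[>] 0)
      (𝓝 0) := by
  have h1 := euler_sz (K := K) (S := idx N k)
    (β := fun v (S : Fin r → Finset (Fin N)) => ∏ j, ∏ i ∈ S j, ev (t v) i)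
    (fun v S _ => norm_term S _)
  simp only [chiW_eq_sum]
  exact h1

theorem pm_null {I : Type} [Fintype I] {P : I → Part N}
    {t : HeightOneSpectrum (𝓞 K) → UnitAddTorus (Fin N)} (ht : ∀ v, t v ∈ classes P) {ε : ℝ}
    (h : Good K ε) : (pm t ε : Measure (UnitAddTorus (Fin N))) (classes P)ᶜ = 0 := by
  obtain ⟨v0⟩ : Nonempty (HeightOneSpectrum (𝓞 K)) := by
    by_contra hcon
    rw [not_nonempty_iff] at hcon
    have h1 := (hasSum_wt h).tsum_eq
    rw [tsum_empty] at h1
    exact zero_ne_one h1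
  have hne : (classes P).Nonempty := ⟨t v0, ht v0⟩
  have hc : Continuous fun x : UnitAddTorus (Fin N) => Metric.infDist x (classes P) :=
    Metric.continuous_infDist_pt _
  have h1 := pm_int t h (f := fun x => ((Metric.infDist x (classes P) : ℝ) : ℂ))
    (Complex.continuous_ofReal.comp hc)
  have h2 : (fun v => ((Metric.infDist (t v) (classes P) : ℝ) : ℂ)) = fun _ => 0 := by
    funext v
    rw [Metric.infDist_zero_of_mem (ht v), Complex.ofReal_zero]
  have h3 : cE (fun v => ((Metric.infDist (t v) (classes P) : ℝ) : ℂ)) ε = 0 := by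
    rw [h2]
    unfold cE
    simp
  rw [h3, integral_complex_ofReal] at h1
  have h6 : ∫ x, Metric.infDist x (classes P) ∂(pm t ε : Measure (UnitAddTorus (Fin N))) = 0 := by
    exact_mod_cast h1
  rw [integral_eq_zero_iff_of_nonneg (fun x => Metric.infDist_nonneg)
    (integrable_cont_real _ hc)] at h6
  have h7 : ∀ᵐ x ∂(pm t ε : Measure (UnitAddTorus (Fin N))), x ∈ classes P := by
    filter_upwards [h6] with x hx
    exact ((isClosed_classes P).mem_iff_infDist_zero hne).2 hx
  exact h7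

end

/-- **OG-FL.** -/
theorem t : StmFL := by
  intro N I _ P R hR m f hf hfS δ hδ
  obtain ⟨η, R', hη, hmain⟩ := near P hR f hf hfS hδ
  refine ⟨η / 2, R', half_pos hη, fun K _ _ t ht => ?_⟩
  have hev : ∀ M : ℕ, ∀ᶠ ε : ℝ in 𝓝[>] 0, ∀ (r : Fin (M + 1)) (k : Fin r → Fin (N + 1)),
      |avg (fun v => (chiW (fun j => (k j : ℕ)) (t v)).re) ε -
        sz (wordLT t fun j => (k j : ℕ)) ε| < η / 2 := by
    intro M
    rw [Filter.eventually_all]
    intro r
    rw [Filter.eventually_all]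
    intro k
    have h2 := (word_szT t (fun j => (k j : ℕ))).abs
    rw [abs_zero] at h2
    exact h2.eventually_lt_const (half_pos hη)
  filter_upwards [hev R', hev R, good_ev (K := K)] with ε h1 h2 h3
  have hint : ∀ (r : ℕ) (k : Fin r → ℕ),
      ∫ x, chiW k x ∂(pm t ε : Measure (UnitAddTorus (Fin N))) =
        ((avg (fun v => (chiW k (t v)).re) ε : ℝ) : ℂ) := by
    intro r k
    rw [pm_int t h3 (continuous_chiW k)]
    have hb : ∀ v, ‖chiW k (t v)‖ ≤ (idx N k).card := fun v => norm_chiW_le k _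
    apply Complex.ext
    · rw [cE_re h3 hb, Complex.ofReal_re]
    · rw [cE_im h3 hb, Complex.ofReal_im]
      have h4 : (fun v => (chiW k (t v)).im) = fun _ => 0 :=
        funext fun v => im_chiW k (classes_SD (ht v))
      rw [h4, avg_eq]
      simp
  by_cases hA : ∃ (r : ℕ) (k : Fin r → ℕ), r ≤ R' ∧ (∀ j, k j ≤ N) ∧
      ∀ n : ℤ, η / 2 < |sz (wordLT t k) ε - n|
  · exact Or.inl hA
  by_cases hB : ∃ (r : ℕ) (k : Fin r → ℕ), r ≤ R ∧ (∀ j, k j ≤ N) ∧
      η / 2 < |sz (wordLT t k) ε - (hm P (chiW k)).re|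
  · exact Or.inr (Or.inl hB)
  push Not at hA hB
  right
  right
  obtain ⟨Γ, a, hadm, hlaw⟩ := hmain (pm t ε) (pm_null ht h3) (fun r k hr hk => by
    obtain ⟨n, hn⟩ := hA r k hr hk
    refine ⟨n, ?_⟩
    have h5 : |avg (fun v => (chiW k (t v)).re) ε - sz (wordLT t k) ε| < η / 2 :=
      h1 ⟨r, by omega⟩ (fun j => ⟨k j, by have := hk j; omega⟩)
    rw [hint, ← Complex.ofReal_intCast, ← Complex.ofReal_sub, Complex.norm_real, Real.norm_eq_abs]
    calc |avg (fun v => (chiW k (t v)).re) ε - n|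
        = |(avg (fun v => (chiW k (t v)).re) ε - sz (wordLT t k) ε) +
          (sz (wordLT t k) ε - n)| := by congr 1; ring
      _ ≤ |avg (fun v => (chiW k (t v)).re) ε - sz (wordLT t k) ε| +
          |sz (wordLT t k) ε - n| := abs_add_le _ _
      _ ≤ η := by linarith) (fun r k hr hk => by
    have hn := hB r k hr hk
    have h5 : |avg (fun v => (chiW k (t v)).re) ε - sz (wordLT t k) ε| < η / 2 :=
      h2 ⟨r, by omega⟩ (fun j => ⟨k j, by have := hk j; omega⟩)
    rw [hint, hm_real, ← Complex.ofReal_sub, Complex.norm_real, Real.norm_eq_abs]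
    calc |avg (fun v => (chiW k (t v)).re) ε - (hm P (chiW k)).re|
        = |(avg (fun v => (chiW k (t v)).re) ε - sz (wordLT t k) ε) +
          (sz (wordLT t k) ε - (hm P (chiW k)).re)| := by congr 1; ring
      _ ≤ |avg (fun v => (chiW k (t v)).re) ε - sz (wordLT t k) ε| +
          |sz (wordLT t k) ε - (hm P (chiW k)).re| := abs_add_le _ _
      _ ≤ η := by linarith)
  refine ⟨Γ, a, hadm, fun σ hσ i => ?_⟩
  have h6 := hlaw σ hσ i
  have h7 : ∫ x, f i x ∂(pm t ε : Measure (UnitAddTorus (Fin N))) = avg (fun v => f i (t v)) ε := by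
    have h8 := pm_int t h3 (f := fun x => (f i x : ℂ)) (Complex.continuous_ofReal.comp (hf i))
    rw [integral_complex_ofReal] at h8
    have h9 := congrArg Complex.re h8
    rw [Complex.ofReal_re] at h9
    obtain ⟨C, hC'⟩ := isCompact_univ.exists_bound_of_continuousOn (f := f i) (hf i).continuousOn
    rw [cE_re h3 (B := C) (fun v => by
      rw [Complex.norm_real]
      exact hC' _ (Set.mem_univ _))] at h9
    simpa only [Complex.ofReal_re] using h9
  rwa [h7] at h6

end Pool.Agent.Y67.OGF
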