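import Pool.Agent.Y798.OG.Part
import Pool.Agent.TH553.RS.Artin

/-!
# Weighted rigidity of unimodular numbers (StmRig), project OG of helper798
-/

set_option autoImplicit false

namespace Pool.Agent.Y67.OG

open Complex Filter Topology Pool.Agent.TH553.RS

theorem norm_sub_prod {ι : Type*} (S : Finset ι) {u : ι → ℂ} (hu : ∀ i, ‖u i‖ = 1) :
    ‖1 - ∏ i ∈ S, u i‖ ≤ ∑ i ∈ S, ‖1 - u i‖ := by
  classical
  induction S using Finset.induction_on with
  | empty => simp
  | insert a S ha ih =>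
    rw [Finset.prod_insert ha, Finset.sum_insert ha]
    have h1 : 1 - u a * ∏ i ∈ S, u i = (1 - u a) + u a * (1 - ∏ i ∈ S, u i) := by ring
    rw [h1]
    refine (norm_add_le _ _).trans (add_le_add le_rfl ?_)
    rw [norm_mul, hu a, one_mul]
    exact ih

theorem sq_sub {u : ℂ} (hu : ‖u‖ = 1) : ‖1 - u‖ ^ 2 = 2 - 2 * u.re := by
  rw [← Complex.normSq_eq_norm_sq, Complex.normSq_apply]
  have h1 : u.re * u.re + u.im * u.im = 1 := by
    rw [← Complex.normSq_apply, Complex.normSq_eq_norm_sq, hu]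
    norm_num
  simp only [sub_re, one_re, sub_im, one_im]
  nlinarith

theorem one_sub_prod {ι : Type*} [Fintype ι] {u : ι → ℂ} (hu : ∀ i, ‖u i‖ = 1) :
    1 - (∏ i, u i).re ≤ (Fintype.card ι : ℝ) * ∑ i, (1 - (u i).re) := by
  have hp : ‖∏ i, u i‖ = 1 := by
    rw [norm_prod]
    exact Finset.prod_eq_one fun i _ => hu i
  have h1 := sq_sub hp
  have h2 := pow_le_pow_left₀ (norm_nonneg _) (norm_sub_prod Finset.univ hu) 2
  have h3 := sq_sum_le_card_mul_sum_sq (s := (Finset.univ : Finset ι)) (f := fun i => ‖1 - u i‖)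
  have h4 : ∑ i, ‖1 - u i‖ ^ 2 = 2 * ∑ i, (1 - (u i).re) := by
    rw [Finset.mul_sum]
    refine Finset.sum_congr rfl fun i _ => ?_
    rw [sq_sub (hu i)]
    ring
  rw [h4, Finset.card_univ] at h3
  nlinarith

theorem rigid_w {P : Type*} {N : P → ℕ} (hN : Sys N) {U : Ultrafilter ℝ}
    (hU : (U : Filter ℝ) ≤ 𝓝[>] 0) {a : P → ℝ} (ha : ∀ p, 0 ≤ a p ∧ a p ≤ 1) {ι : Type*}
    [Fintype ι] (u : ι → P → ℂ) (hu : ∀ i p, ‖u i p‖ = 1)
    (h : M N U (fun p => a p * (∑ i, u i p).re) = Fintype.card ι * M N U a) :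
    M N U (fun p => a p * (∏ i, u i p).re) = M N U a := by
  have hba : Bd a := ⟨1, fun p => by rw [abs_of_nonneg (ha p).1]; exact (ha p).2⟩
  have hbr : ∀ v : P → ℂ, (∀ p, ‖v p‖ = 1) → Bd fun p => (v p).re := fun v hv =>
    ⟨1, fun p => (Complex.abs_re_le_norm _).trans (hv p).le⟩
  have hp : ∀ p, ‖∏ i, u i p‖ = 1 := fun p => by
    rw [norm_prod]
    exact Finset.prod_eq_one fun i _ => hu i p
  have hbS : Bd fun p => a p * (∑ i, u i p).re := by
    refine hba.mul ?_
    have h1 : Bd fun p => ∑ i, (u i p).re := Bd.sum _ fun i _ => hbr (u i) (hu i)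
    have e : (fun p => (∑ i, u i p).re) = fun p => ∑ i, (u i p).re :=
      funext fun p => Complex.re_sum _ _
    rw [e]
    exact h1
  have hbP : Bd fun p => a p * (∏ i, u i p).re := hba.mul (hbr _ hp)
  -- the sum of the defects has mean zero
  have h1 : M N U (fun p => (Fintype.card ι : ℝ) * a p - a p * (∑ i, u i p).re) = 0 := by
    rw [M_sub hN hU (hba.const_mul _) hbS, M_const_mul hN hU hba, h, sub_self]
  have hb1 : Bd fun p => (Fintype.card ι : ℝ) * a p - a p * (∑ i, u i p).re :=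
    (hba.const_mul _).sub hbS
  have h2 : ∀ p, a p - a p * (∏ i, u i p).re ≤
      (Fintype.card ι : ℝ) * ((Fintype.card ι : ℝ) * a p - a p * (∑ i, u i p).re) := by
    intro p
    have h3 := mul_le_mul_of_nonneg_left (one_sub_prod fun i => hu i p) (ha p).1
    have h4 : ∑ i, (1 - (u i p).re) = (Fintype.card ι : ℝ) - (∑ i, u i p).re := by
      rw [Finset.sum_sub_distrib, Finset.sum_const, Finset.card_univ, nsmul_eq_mul, mul_one,
        Complex.re_sum]
    rw [h4] at h3
    linarith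
  have h5 := M_mono hN hU (hba.sub hbP) (hb1.const_mul (Fintype.card ι : ℝ)) h2
  rw [M_const_mul hN hU hb1, h1, mul_zero, M_sub hN hU hba hbP] at h5
  have h6 : M N U (fun p => a p * (∏ i, u i p).re) ≤ M N U a := by
    refine M_mono hN hU hbP hba fun p => ?_
    have h7 : (∏ i, u i p).re ≤ 1 := (Complex.re_le_norm _).trans (hp p).le
    exact mul_le_of_le_one_right (ha p).1 h7
  linarith

/-- **OG-RIG.** -/
theorem t : Pool.Agent.Y798.OG.StmRig := fun K _ _ _ hU _ ha _ _ u hu h =>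
  rigid_w (sysF K) hU ha u hu h

end Pool.Agent.Y67.OG
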