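import Pool.Agent.Y798.OG.Stm3
import Pool.Agent.Y689.FC2.Trans

/-!
# Finitely many values are inherited by the limit, with a weight (job OG-TRANSW)

(adapted from `Pool/Agent/Y689/FC2/Trans.lean`)
-/

set_option autoImplicit false

namespace Pool.Agent.Y67.OGT

open Complex Filter Topology MeasureTheory UnitAddTorus NumberField IsDedekindDomain
open Pool.Agent.Y798.FC Pool.Agent.Y798.OG
open Pool.Agent.Y139.ID (Good good_ev wt wt_nonneg hasSum_wt avg avg_eq avg_le integrable_cont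
  integrable_cont_real)
open Pool.Agent.Y689.FC2 (modulus cE_dom)

/-- job OG-TRANSW -/
theorem t : StmTransW := by
  intro K _ _ r W Φ hWf hne κ hκ θ a ha U hU hD h S hS T hT hTW hlim x
  classical
  -- bounds
  obtain ⟨C1, hC1⟩ := isCompact_univ.exists_bound_of_continuousOn hT.continuousOn
  set A : ℝ := ∑ s ∈ S, |s| with hA
  have hA0 : 0 ≤ A := Finset.sum_nonneg fun _ _ => abs_nonneg _
  have hh : ∀ v, ‖h v‖ ≤ A + 1 := by
    intro v
    have e1 : ‖h v‖ ^ 2 ≤ A := by
      have e2 : |‖h v‖ ^ 2| ≤ A :=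
        Finset.single_le_sum (f := fun s : ℝ => |s|) (fun _ _ => abs_nonneg _) (hS v)
      exact (le_abs_self _).trans e2
    nlinarith [norm_nonneg (h v), sq_nonneg (‖h v‖ - 1)]
  set C : ℝ := max C1 (A + 1) with hC
  have hTC : ∀ y, ‖T y‖ ≤ C := fun y => (hC1 y (Set.mem_univ y)).trans (le_max_left _ _)
  have hhC : ∀ v, ‖h v‖ ≤ C := fun v => (hh v).trans (le_max_right _ _)
  -- the test function
  let g : ℂ → ℝ := fun z => ∏ s ∈ S, (‖z‖ ^ 2 - s) ^ 2
  have hg : Continuous g := by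
    refine continuous_finsetProd _ fun s _ => ?_
    fun_prop
  have hg0 : ∀ z, 0 ≤ g z := fun z => Finset.prod_nonneg fun _ _ => sq_nonneg _
  have hgS : ∀ z, g z = 0 ↔ ‖z‖ ^ 2 ∈ S := by
    intro z
    change (∏ s ∈ S, (‖z‖ ^ 2 - s) ^ 2) = 0 ↔ _
    rw [Finset.prod_eq_zero_iff]
    constructor
    · rintro ⟨s, hs, h0⟩
      have : ‖z‖ ^ 2 - s = 0 := by simpa using h0
      have h1 : ‖z‖ ^ 2 = s := by linarith
      rw [h1]
      exact hs
    · intro hz
      exact ⟨_, hz, by simp⟩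
  obtain ⟨G, hG⟩ := (isCompact_closedBall (0 : ℂ) C).exists_bound_of_continuousOn hg.continuousOn
  have hgG : ∀ v, g (T (θ v)) ≤ G := fun v => by
    have := hG (T (θ v)) (by simpa using hTC (θ v))
    exact (le_abs_self _).trans this
  -- the mean tends to zero
  have hz : Tendsto (cE fun v => ((a v * g (T (θ v)) : ℝ) : ℂ)) (U : Filter ℝ) (𝓝 0) := by
    rw [Metric.tendsto_nhds]
    intro ε0 hε0
    obtain ⟨M, hM0, hM⟩ := modulus hg C (half_pos hε0)
    have hre : Tendsto (fun ε => (cE (fun v => ((a v * ‖h v - T (θ v)‖ ^ 2 : ℝ) : ℂ)) ε).re)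
        (U : Filter ℝ) (𝓝 0) := by
      have := (Complex.continuous_re.tendsto 0).comp hlim
      simpa [Function.comp_def] using this
    have hM2 : Tendsto (fun ε => ε0 / 2 +
        M * (cE (fun v => ((a v * ‖h v - T (θ v)‖ ^ 2 : ℝ) : ℂ)) ε).re) (U : Filter ℝ)
        (𝓝 (ε0 / 2 + M * 0)) :=
      (hre.const_mul M).const_add _
    rw [mul_zero, add_zero] at hM2
    filter_upwards [hU (good_ev (K := K)), hM2.eventually (gt_mem_nhds (half_lt_self hε0))] with ε h1 h2
    rw [dist_zero_right]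
    refine lt_of_le_of_lt ?_ h2
    refine cE_dom h1 (B1 := G) (B2 := (2 * C) ^ 2) (fun v => mul_nonneg (ha v).1 (hg0 _))
      (fun v => (mul_le_of_le_one_left (hg0 _) (ha v).2).trans (hgG v)) (fun v => ?_) fun v => ?_
    · rw [abs_of_nonneg (mul_nonneg (ha v).1 (by positivity))]
      refine (mul_le_of_le_one_left (by positivity) (ha v).2).trans ?_
      refine pow_le_pow_left₀ (norm_nonneg _) ?_ 2
      refine (norm_sub_le _ _).trans ?_
      have := hhC v
      have := hTC (θ v)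
      linarith
    · have e1 := hM (h v) (T (θ v)) (hhC v) (hTC _)
      have e2 : g (h v) = 0 := (hgS _).2 (hS v)
      rw [e2, zero_sub, abs_neg, abs_of_nonneg (hg0 _)] at e1
      have e3 := mul_le_mul_of_nonneg_left e1 (ha v).1
      have e4 : a v * (ε0 / 2) ≤ ε0 / 2 := mul_le_of_le_one_left (by positivity) (ha v).2
      have e5 : a v * (ε0 / 2 + M * ‖h v - T (θ v)‖ ^ 2) =
          a v * (ε0 / 2) + M * (a v * ‖h v - T (θ v)‖ ^ 2) := by ring
      linarith
  -- the law
  have hfc : Continuous fun y => ((g (T y) : ℝ) : ℂ) :=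
    Complex.continuous_ofReal.comp (hg.comp hT)
  have hl := hD (fun y => ((g (T y) : ℝ) : ℂ)) hfc (fun w hw y => by rw [hTW w hw y])
  have hz' : Tendsto (cE fun v => (a v : ℂ) * ((g (T (θ v)) : ℝ) : ℂ)) (U : Filter ℝ) (𝓝 0) := by
    have e : (fun v => ((a v * g (T (θ v)) : ℝ) : ℂ)) =
        fun v => (a v : ℂ) * ((g (T (θ v)) : ℝ) : ℂ) := by
      funext v
      push_cast
      rfl
    rw [← e]
    exact hz
  have h0 := tendsto_nhds_unique hl hz'
  have hcard : ((κ : ℂ) * (Nat.card W : ℂ))⁻¹ ≠ 0 :=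
    inv_ne_zero (mul_ne_zero (Nat.cast_ne_zero.2 hκ.ne') (Nat.cast_ne_zero.2 Nat.card_pos.ne'))
  have h1 := (mul_eq_zero.1 h0).resolve_left hcard
  have h2 : ∫ y, g (T y) * dens Φ y ∂(vol (Fin r)) = 0 := by
    have e : ∀ y, ((g (T y) : ℝ) : ℂ) * (dens Φ y : ℂ) = ((g (T y) * dens Φ y : ℝ) : ℂ) := by
      intro y
      push_cast
      ring
    simp only [e] at h1
    rw [integral_complex_ofReal] at h1
    exact_mod_cast h1
  have hgc : Continuous fun y => g (T y) := hg.comp hT
  have hint : Integrable (fun y => g (T y) * dens Φ y) (vol (Fin r)) :=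
    integrable_cont_real _ (hgc.mul (continuous_dens Φ))
  rw [integral_eq_zero_iff_of_nonneg (fun y => mul_nonneg (hg0 _) (dens_nonneg Φ y)) hint] at h2
  have h3 : (fun y => g (T y)) =ᵐ[vol (Fin r)] fun _ => 0 := by
    filter_upwards [h2, null_dens hne] with y hy hy'
    exact (mul_eq_zero.1 hy).resolve_right hy'.ne'
  have hop : (vol (Fin r)).IsOpenPosMeasure := by
    unfold vol
    infer_instance
  have h4 := (hgc.ae_eq_iff_eq (vol (Fin r)) continuous_const).1 h3
  exact (hgS _).1 (congrFun h4 x)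

end Pool.Agent.Y67.OGT
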